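import Mathlib
import Pool.Agent.RestrictedExplicit.Bound
import Pool.Agent.RestrictedExplicit.Local

set_option autoImplicit false

/-!
# The restricted order of an additive basis: explicit bound and local criterion (Erdős–Graham)

A basis of order at most `h` has a restricted order if and only if for every modulus `2 ≤ g ≤ F h`
that divides all but finitely many of its elements the subset sums of the exceptional elements meet
every residue class modulo `g`, and then the restricted order is at most `F h = 2^(2^(6h+12))`.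
-/

namespace Pool.Agent.Results.MP_4f8442_nt.ExplicitBound

/-- `A` is a basis of order at most `h`: every sufficiently large integer is a sum of at most `h`
elements of `A`, repetitions allowed. -/
def BasisOrderAtMost (A : Set ℕ) (h : ℕ) : Prop :=
  ∃ n₀ : ℕ, ∀ n, n₀ ≤ n → ∃ s : Multiset ℕ, Multiset.card s ≤ h ∧ (∀ x ∈ s, x ∈ A) ∧ s.sum = n

/-- `A` has restricted order at most `t`: every sufficiently large integer is a sum of at most `t`
pairwise distinct elements of `A`. -/
def RestrictedOrderAtMost (A : Set ℕ) (t : ℕ) : Prop :=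
  ∃ n₀ : ℕ, ∀ n, n₀ ≤ n → ∃ s : Finset ℕ, (↑s : Set ℕ) ⊆ A ∧ s.card ≤ t ∧ ∑ x ∈ s, x = n

/-- `A` has a restricted order. -/
def HasRestrictedOrder (A : Set ℕ) : Prop := ∃ t, RestrictedOrderAtMost A t

/-- `A` is complete: every sufficiently large integer is a sum of pairwise distinct elements
of `A` (any number of them). -/
def Complete (A : Set ℕ) : Prop :=
  ∃ n₀ : ℕ, ∀ n, n₀ ≤ n → ∃ s : Finset ℕ, (↑s : Set ℕ) ⊆ A ∧ ∑ x ∈ s, x = n

/-- The elements of `A` which are not divisible by `g`. -/
def exceptional (A : Set ℕ) (g : ℕ) : Set ℕ := {a ∈ A | ¬ g ∣ a}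

/-- The sums of pairwise distinct elements of `B` meet every residue class modulo `g`. -/
def MeetsAllClasses (B : Set ℕ) (g : ℕ) : Prop :=
  ∀ r : ℕ, ∃ s : Finset ℕ, (↑s : Set ℕ) ⊆ B ∧ (∑ x ∈ s, x) % g = r % g

/-- The explicit bound. -/
def F (h : ℕ) : ℕ := 2 ^ (2 ^ (6 * h + 12))

/-- For a basis of order at most `h` the following are equivalent: it has a restricted order; it is
complete; for every `g ≥ 1` dividing all but finitely many elements, the subset sums of the
exceptional elements meet every residue class modulo `g`; the same for `2 ≤ g ≤ F h` only; it has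
restricted order at most `F h`. -/
theorem result (h : ℕ) (A : Set ℕ) (hA : BasisOrderAtMost A h) :
    [HasRestrictedOrder A,
      Complete A,
      ∀ g, 1 ≤ g → (exceptional A g).Finite → MeetsAllClasses (exceptional A g) g,
      ∀ g, 2 ≤ g → g ≤ F h → (exceptional A g).Finite → MeetsAllClasses (exceptional A g) g,
      RestrictedOrderAtMost A (F h)].TFAE := by
  classical
  have h12 : HasRestrictedOrder A → Complete A := by
    rintro ⟨t, n₀, H⟩
    refine ⟨n₀, fun n hn => ?_⟩
    obtain ⟨s, hs, -, hs'⟩ := H n hn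
    exact ⟨s, hs, hs'⟩
  have h23 : Complete A → ∀ g, 1 ≤ g → (exceptional A g).Finite →
      MeetsAllClasses (exceptional A g) g := by
    rintro ⟨n₀, H⟩ g hg - r
    obtain ⟨s, hs, hs'⟩ := H (r + g * n₀) (by nlinarith)
    refine ⟨s.filter (fun a => ¬ g ∣ a), ?_, ?_⟩
    · intro a ha
      rw [Finset.mem_coe, Finset.mem_filter] at ha
      exact ⟨hs (Finset.mem_coe.mpr ha.1), ha.2⟩
    · have h1 : ∑ x ∈ s.filter (fun a => g ∣ a), x + ∑ x ∈ s.filter (fun a => ¬ g ∣ a), x
          = r + g * n₀ := by
        rw [Finset.sum_filter_add_sum_filter_not, hs']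
      have h2 : g ∣ ∑ x ∈ s.filter (fun a => g ∣ a), x :=
        Finset.dvd_sum (fun x hx => (Finset.mem_filter.mp hx).2)
      obtain ⟨k, hk⟩ := h2
      have h3 : (∑ x ∈ s.filter (fun a => ¬ g ∣ a), x + g * k) % g = (r + g * n₀) % g := by
        rw [← h1, hk, add_comm]
      rwa [Nat.add_mul_mod_self_left, Nat.add_mul_mod_self_left] at h3
  have h34 : (∀ g, 1 ≤ g → (exceptional A g).Finite → MeetsAllClasses (exceptional A g) g) →
      ∀ g, 2 ≤ g → g ≤ F h → (exceptional A g).Finite → MeetsAllClasses (exceptional A g) g :=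
    fun H g hg _ => H g (by omega)
  have h45 : (∀ g, 2 ≤ g → g ≤ F h → (exceptional A g).Finite →
      MeetsAllClasses (exceptional A g) g) → RestrictedOrderAtMost A (F h) := by
    intro H
    obtain ⟨n₁, hn₁⟩ := Pool.Agent.RestrictedExplicit.main_exp h A hA
      (fun q hq hq' => Pool.Agent.RestrictedExplicit.meets_of_local A q hq
        (fun g hg hgq hfin r => by
          have hqF := hq'.trans (Pool.Agent.RestrictedExplicit.mod_le_bound h)
          obtain ⟨s, hs, hs'⟩ := H g hg ((Nat.le_of_dvd (by omega) hgq).trans hqF) hfin r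
          exact ⟨s, fun a ha => (hs ha).1, hs'⟩))
    refine ⟨n₁, fun n hn => ?_⟩
    obtain ⟨s, hs, hs', hs''⟩ := hn₁ n hn
    exact ⟨s, hs, hs'.trans (Pool.Agent.RestrictedExplicit.bF_le h), hs''⟩
  have h51 : RestrictedOrderAtMost A (F h) → HasRestrictedOrder A := fun H => ⟨F h, H⟩
  tfae_have 1 → 2 := h12
  tfae_have 2 → 3 := h23
  tfae_have 3 → 4 := h34
  tfae_have 4 → 5 := h45
  tfae_have 5 → 1 := h51
  tfae_finish

end Pool.Agent.Results.MP_4f8442_nt.ExplicitBound
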